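import Pool.Agent.Helper79.KM.Defs

/-!
Block B4: if the Lie algebra of the closure of the image contains all block diagonal matrices of trace zero in every block,
then the closure contains the product of the special linear groups.
-/

set_option autoImplicit false

open Matrix H77MT Pool.Agent.Helper79.KM

namespace Pool.Agent.Helper85.KM

/-- A diagonal matrix with two entries `a`, `a⁻¹` is a product of transvections. -/
lemma diag2n_eq {ι F : Type*} [DecidableEq ι] [Fintype ι] [Field F] {i j : ι} (hij : i ≠ j) (a : F) (ha : a ≠ 0) :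
    SpecialLinearGroup.diag2n hij a ha =
      SpecialLinearGroup.transvection hij a * SpecialLinearGroup.transvection hij.symm (-a⁻¹) *
      SpecialLinearGroup.transvection hij a * (SpecialLinearGroup.transvection hij (-1) *
      SpecialLinearGroup.transvection hij.symm 1 * SpecialLinearGroup.transvection hij (-1)) := by
  apply Subtype.ext
  change diagonal (fun k ↦ if k = i then a else if k = j then a⁻¹ else 1) =
    (1 + single i j a) * (1 + single j i (-a⁻¹)) * (1 + single i j a) *
      ((1 + single i j (-1)) * (1 + single j i 1) * (1 + single i j (-1)))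
  have hji : j ≠ i := hij.symm
  set u : Matrix ι ι F := single i j 1 with hu
  set v : Matrix ι ι F := single j i 1 with hv
  set e : Matrix ι ι F := single i i 1 with he
  set f : Matrix ι ι F := single j j 1 with hf
  have huu : u * u = 0 := by rw [hu, single_mul_single_of_ne _ _ _ _ hji]
  have hvv : v * v = 0 := by rw [hv, single_mul_single_of_ne _ _ _ _ hij]
  have huv : u * v = e := by rw [hu, hv, single_mul_single_same, one_mul]
  have hvu : v * u = f := by rw [hu, hv, single_mul_single_same, one_mul]
  have heu : e * u = u := by rw [he, hu, single_mul_single_same, one_mul]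
  have hev : e * v = 0 := by rw [he, hv, single_mul_single_of_ne _ _ _ _ hij]
  have hfu : f * u = 0 := by rw [hf, hu, single_mul_single_of_ne _ _ _ _ hji]
  have hfv : f * v = v := by rw [hf, hv, single_mul_single_same, one_mul]
  have hue : u * e = 0 := by rw [he, hu, single_mul_single_of_ne _ _ _ _ hji]
  have hve : v * e = v := by rw [he, hv, single_mul_single_same, one_mul]
  have huf : u * f = u := by rw [hf, hu, single_mul_single_same, one_mul]
  have hvf : v * f = 0 := by rw [hf, hv, single_mul_single_of_ne _ _ _ _ hij]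
  have hee : e * e = e := by rw [he, single_mul_single_same, one_mul]
  have hff : f * f = f := by rw [hf, single_mul_single_same, one_mul]
  have hef : e * f = 0 := by rw [he, hf, single_mul_single_of_ne _ _ _ _ hij]
  have hfe : f * e = 0 := by rw [he, hf, single_mul_single_of_ne _ _ _ _ hji]
  have s1 : ∀ c : F, single i j c = c • u := fun c => by rw [hu, smul_single, smul_eq_mul, mul_one]
  have s2 : ∀ c : F, single j i c = c • v := fun c => by rw [hv, smul_single, smul_eq_mul, mul_one]
  rw [s1, s1, s2]
  have h1 : ((1 : Matrix ι ι F) + a • u) * (1 + (-a⁻¹) • v) * (1 + a • u) = 1 + a • u - a⁻¹ • v - e - f := by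
    have e1 : ((1 : Matrix ι ι F) + a • u) * (1 + (-a⁻¹) • v) = 1 + a • u - a⁻¹ • v - e := by
      rw [add_mul, mul_add, mul_add, Matrix.one_mul, Matrix.one_mul, Matrix.mul_one, smul_mul_smul_comm, huv, mul_neg,
        mul_inv_cancel₀ ha]
      module
    rw [e1, mul_add, Matrix.mul_one, mul_smul_comm, sub_mul, sub_mul, add_mul, Matrix.one_mul, smul_mul_assoc, smul_mul_assoc,
      huu, hvu, heu, smul_sub, smul_sub, smul_smul, mul_inv_cancel₀ ha] 
    simp only [smul_zero, smul_add]
    module
  have h2 : ((1 : Matrix ι ι F) + (-1 : F) • u) * (1 + v) * (1 + (-1 : F) • u) = 1 - u + v - e - f := by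
    have e1 : ((1 : Matrix ι ι F) + (-1 : F) • u) * (1 + v) = 1 - u + v - e := by
      rw [add_mul, mul_add, mul_add, Matrix.one_mul, Matrix.one_mul, Matrix.mul_one, smul_mul_assoc, huv]
      module
    rw [e1, mul_add, Matrix.mul_one, mul_smul_comm, sub_mul, add_mul, sub_mul, Matrix.one_mul, huu, hvu, heu]
    module
  rw [h1, h2]
  have h3 : (1 + a • u - a⁻¹ • v - e - f) * (1 - u + v - e - f) = 1 + (a - 1) • e + (a⁻¹ - 1) • f := by
    simp only [mul_sub, mul_add, sub_mul, add_mul, Matrix.mul_one, Matrix.one_mul, smul_mul_assoc, huu, hvv, huv, hvu, heu,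
      hev, hfu, hfv, hue, hve, huf, hvf, hee, hff, hef, hfe, smul_zero]
    module
  rw [h3]
  ext k l
  rw [Matrix.add_apply, Matrix.add_apply, Matrix.smul_apply, Matrix.smul_apply, he, hf, single_apply, single_apply,
    diagonal_apply, Matrix.one_apply, smul_eq_mul, smul_eq_mul]
  by_cases hkl : k = l
  · subst hkl
    by_cases h1 : k = i
    · subst h1
      simp [hji]
    · by_cases h2 : k = j
      · subst h2
        simp [hij, hji]
      · simp [h1, h2, Ne.symm h1, Ne.symm h2]
  · have h1 : ¬ (i = k ∧ i = l) := fun h => hkl (h.1.symm.trans h.2)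
    have h2 : ¬ (j = k ∧ j = l) := fun h => hkl (h.1.symm.trans h.2)
    simp [h1, h2, hkl]

variable {K : Type} [Field K] {Γ X : Type} [Group Γ] [DecidableEq X] {g : ℕ}

private lemma one_mem_img (ρ : Rep Γ X g K) (Δ : Subgroup Γ) : (1 : Matrix (Ix g × X) (Ix g × X) K) ∈ img ρ Δ := by
  refine ⟨1, Δ.one_mem, ?_⟩
  rw [mat]
  simp only [map_one]
  exact (blockDiagonal_one (m := Ix g) (o := X) (α := K)).symm

private lemma img_mul [Fintype X] (ρ : Rep Γ X g K) (Δ : Subgroup Γ) : ∀ s ∈ img ρ Δ, ∀ t ∈ img ρ Δ, s * t ∈ img ρ Δ := by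
  rintro _ ⟨a, ha, rfl⟩ _ ⟨b, hb, rfl⟩
  refine ⟨a * b, Δ.mul_mem ha hb, ?_⟩
  rw [mat, mat, mat, ← blockDiagonal_mul]
  congr 1
  funext x
  rw [map_mul]
  rfl

end Pool.Agent.Helper85.KM

namespace Pool.Agent.Helper79.KM

variable {K : Type} [Field K] {Γ X : Type} [Group Γ] [DecidableEq X] [Fintype X] {g : ℕ}

/-- B4 -/
theorem full_of_LL [CharZero K] (ρ : Rep Γ X g K) (Δ : Subgroup Γ)
    (h : ∀ M : X → Matrix (Ix g) (Ix g) K, (∀ x, (M x).trace = 0) → blockDiagonal M ∈ LL (img ρ Δ))
    (M : X → Matrix (Ix g) (Ix g) K) (hM : ∀ x, (M x).det = 1) : blockDiagonal M ∈ zcl (img ρ Δ) := by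
  have hone := Helper85.KM.one_mem_img ρ Δ
  have hmul := Helper85.KM.img_mul ρ Δ
  have key : ∀ (x : X) (A : Matrix.SpecialLinearGroup (Ix g) K),
      blockDiagonal (Pi.mulSingle x (SpecialLinearGroup.coeMonoidHom A)) ∈ zcl (img ρ Δ) := by
    intro x
    have hm : ∀ A B : Matrix.SpecialLinearGroup (Ix g) K,
        blockDiagonal (Pi.mulSingle x (SpecialLinearGroup.coeMonoidHom A)) ∈ zcl (img ρ Δ) →
        blockDiagonal (Pi.mulSingle x (SpecialLinearGroup.coeMonoidHom B)) ∈ zcl (img ρ Δ) →
        blockDiagonal (Pi.mulSingle x (SpecialLinearGroup.coeMonoidHom (A * B))) ∈ zcl (img ρ Δ) := by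
      intro A B hA hB
      have := zcl_mul hmul hA hB
      rw [← blockDiagonal_mul] at this
      convert this using 2
      rw [map_mul, Pi.mulSingle_mul]
      rfl
    have ht : ∀ (i j : Ix g) (hij : i ≠ j) (a : K), blockDiagonal (Pi.mulSingle x
        (SpecialLinearGroup.coeMonoidHom (SpecialLinearGroup.transvection hij a))) ∈ zcl (img ρ Δ) := by
      intro i j hij a
      have h1 : blockDiagonal (Pi.single x (single i j (1 : K))) ∈ LL (img ρ Δ) := by
        apply h
        intro y
        by_cases hy : y = x
        · subst hy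
          rw [Pi.single_eq_same, trace_single_eq_of_ne _ _ _ hij]
        · rw [Pi.single_eq_of_ne hy, trace_zero]
      have h2 : blockDiagonal (Pi.single x (single i j (1 : K))) * blockDiagonal (Pi.single x (single i j (1 : K))) =
          (0 : Matrix (Ix g × X) (Ix g × X) K) := by
        rw [← blockDiagonal_mul, ← blockDiagonal_zero]
        congr 1
        funext y
        by_cases hy : y = x
        · subst hy
          rw [Pi.single_eq_same, single_mul_single_of_ne _ _ _ _ hij.symm]
          rfl
        · rw [Pi.single_eq_of_ne hy, Matrix.mul_zero]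
          rfl
      have h3 := one_add_mem_zcl hone h1 h2 a
      convert h3 using 1
      rw [← blockDiagonal_one, ← blockDiagonal_smul, ← blockDiagonal_add]
      congr 1
      funext y
      by_cases hy : y = x
      · subst hy
        rw [Pi.mulSingle_eq_same, Pi.add_apply, Pi.smul_apply, Pi.single_eq_same, SpecialLinearGroup.coeMonoidHom_apply,
          SpecialLinearGroup.transvection_coe, smul_single, smul_eq_mul, mul_one]
        rfl
      · rw [Pi.mulSingle_eq_of_ne hy, Pi.add_apply, Pi.smul_apply, Pi.single_eq_of_ne hy, smul_zero, add_zero]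
        rfl
    intro A
    rcases Nat.eq_zero_or_pos g with hg | hg
    · subst hg
      have : A = 1 := Subsingleton.elim _ _
      rw [this, map_one, Pi.mulSingle_one, blockDiagonal_one]
      exact subset_zcl _ hone
    · have hnt : Nontrivial (Ix g) := ⟨⟨Sum.inl ⟨0, hg⟩, Sum.inr ⟨0, hg⟩, by simp⟩⟩
      refine SpecialLinearGroup.diagonal_transvection_induction'
        (fun A => blockDiagonal (Pi.mulSingle x (SpecialLinearGroup.coeMonoidHom A)) ∈ zcl (img ρ Δ)) A ?_ ht hm
      intro i j hij c hc
      rw [Helper85.KM.diag2n_eq hij c hc]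
      exact hm _ _ (hm _ _ (hm _ _ (ht _ _ _ _) (ht _ _ _ _)) (ht _ _ _ _))
        (hm _ _ (hm _ _ (ht _ _ _ _) (ht _ _ _ _)) (ht _ _ _ _))
  have fin : ∀ s : Finset X, blockDiagonal (fun x => if x ∈ s then M x else 1) ∈ zcl (img ρ Δ) := by
    intro s
    induction s using Finset.induction_on with
    | empty =>
      simp only [Finset.notMem_empty, if_false]
      have : blockDiagonal (fun _ : X => (1 : Matrix (Ix g) (Ix g) K)) = 1 := blockDiagonal_one
      rw [this]
      exact subset_zcl _ hone
    | insert x s hx ih =>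
      have h1 := zcl_mul hmul (key x ⟨M x, hM x⟩) ih
      rw [← blockDiagonal_mul] at h1
      convert h1 using 2
      funext y
      by_cases hy : y = x
      · subst hy
        rw [Pi.mulSingle_eq_same, if_pos (Finset.mem_insert_self _ _), if_neg hx, Matrix.mul_one]
        rfl
      · rw [Pi.mulSingle_eq_of_ne hy, Matrix.one_mul]
        simp [Finset.mem_insert, hy]
  have := fin Finset.univ
  simpa using this


end Pool.Agent.Helper79.KM
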